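import Pool.Agent.H68WH.GenFinal

/-!
The inequalities of the chain between the finite levels from the second on are strict for
constant-depth reductions: for every `t ≥ 2`, weighted satisfiability of `Γ_{t+1,1}` formulas has
no (nonuniform) para-AC0 many-one reduction to weighted satisfiability of `Γ_{t,1}` formulas.

The problems `pWSAT t` are defined in `Pool.Agent.H68WH.Defs`, the reductions `ParaAC0Red` in
`Pool.Agent.H592R2.Fml`.
-/

namespace Pool.Agent.Results.MP_39539f_lc.AC0StrictHigherLevels

open Pool.Agent.H592R2 Pool.Agent.H68WH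

/-- **For every `t ≥ 2`, `p-WSAT(Γ_{t+1,1})` is not para-AC0 reducible to `p-WSAT(Γ_{t,1})`.** -/
theorem result : ∀ t : ℕ, 2 ≤ t → ¬ ParaAC0Red (pWSAT (t + 1)) (pWSAT t) := by
  intro t ht
  obtain ⟨n, rfl⟩ : ∃ n, t = n + 2 := ⟨t - 2, by omega⟩
  exact no_red_gen n

end Pool.Agent.Results.MP_39539f_lc.AC0StrictHigherLevels
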