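import Pool.Agent.H68WH.TwoFinal

/-!
The second inequality of the chain is strict for constant-depth reductions: weighted
satisfiability of CNF formulas has no (nonuniform) para-AC0 many-one reduction to weighted
satisfiability of `d`-CNF formulas, for any `d`.

The problems `pWSAT 2` and `pWSATd d` are defined in `Pool.Agent.H68WH.Defs`, the reductions
`ParaAC0Red` in `Pool.Agent.H592R2.Fml`.
-/

namespace Pool.Agent.Results.MP_39539f_lc.AC0StrictLevelOne

open Pool.Agent.H592R2 Pool.Agent.H68WH

/-- **`p-WSAT(Γ_{2,1})` is not para-AC0 reducible to `p-WSAT(Γ_{1,d})`.** -/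
theorem result : ∀ d : ℕ, ¬ ParaAC0Red (pWSAT 2) (pWSATd d) := fun d => no_red_two d

end Pool.Agent.Results.MP_39539f_lc.AC0StrictLevelOne
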