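import Pool.Agent.H68MT.All
import Pool.Agent.H68MT.Level0

/-!
# All levels of the `W`-hierarchy are different with respect to monotone reductions

For no `t ≥ 1` and `d` is there an fpt-reduction, computed by monotone circuits of arbitrary depth,
from weighted satisfiability for formulas with `t + 1` alternating levels (and positive literals
only, if `t` is odd, or negative literals only, if `t` is even) to weighted satisfiability for
formulas with `t` alternating levels over clauses of at most `d` literals. It is enough that the
reduction distinguishes `k`-satisfiable formulas from formulas that are not `h k`-satisfiable, where
`h` is any unbounded function. (In the theorem `t` is replaced by `t + 1`.)

The definitions are in `Pool.Agent.H68MT.Defs` (monotone circuits) and `Pool.Agent.H68MT.AllDefs`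
(formulas and reductions).

Proof. Every gate is approximated by a DNF with small terms or a CNF with narrow clauses. The sparse
inputs are given by a random strategy for the existential gates and `k` random variables, the dense
inputs by a random set of nodes of the formula below which everything is satisfied, and by random
input bits elsewhere. For a fixed weighted assignment, the levels of the target formula are removed
one by one, from the bottom, together with two levels of the source formula each time: a narrow CNF
that is satisfied by a random strategy has a certificate with few plays, and a DNF of few nodes that
is false for a random set of nodes has a narrow certificate.
-/

namespace Pool.Agent.Results.MP_39539f_lc.MonotoneStrictHierarchy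

open Pool.Agent.H68MT.All

/-- For no `t`, `d` and no unbounded function `h` is there a reduction from weighted satisfiability
of formulas with `t + 2` levels to weighted satisfiability of formulas with `t + 1` levels over
clauses of at most `d` literals, computed by monotone circuits, for the gap version with the gap
`h`. -/
theorem result (t d : ℕ) (h : ℕ → ℕ) (hh : ∀ K, ∃ k, K ≤ h k) : ¬ Reduction t d h := by
  rcases Nat.eq_zero_or_pos t with rfl | ht
  · exact no_reduction_zero d h
  · exact no_reduction t d ht h hh

end Pool.Agent.Results.MP_39539f_lc.MonotoneStrictHierarchy
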