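import Pool.Agent.H68MN.Final

/-!
# `W[1]` and `W[2]` with respect to monotone reductions

The hitting set problem, that is weighted satisfiability for CNF formulas without negations
(`p-WSAT(Γ⁺_{2,1})`), is not reducible to `p-WSAT(Γ_{1,d})`, for any `d`, by fpt-reductions computed by
monotone circuits. The circuits may have unbounded depth; the reductions may be Turing reductions
(the circuits have oracle gates, which may be nested); and it is enough that they distinguish
matrices with a hitting set of size at most `k` from those without a hitting set of size at most
`h k`, where `h` is any function.

Proof. Gates are approximated by CNFs with clauses of bounded size. Such a CNF that is satisfied by
a random matrix with a single 1 in each row, in one of `k` random columns, has a certificate of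
logarithmic size except with probability about `n ^ (-k)`. Hence an oracle gate, too, has a certificate
of logarithmic size, although the weighted assignment is not determined by a polynomial number of
gates, and it can again be replaced by a CNF with small clauses, up to a small error on random
matrices with density `1 - n ^ (-ε)`, which have no hitting set of size `h k`.
-/

namespace Pool.Agent.Results.MP_39539f_lc.MonotoneTuring

open Pool.Agent.H68MN

/-- For no function `h` and no `d` are there fpt Turing reductions to `p-WSAT(Γ_{1,d})`, computed by
monotone oracle circuits, that distinguish matrices which have a hitting set of size at most `k`
from those which do not have a hitting set of size at most `h k`. -/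
theorem result (h : ℕ → ℕ) (d : ℕ) : ¬ MonotoneTuringReduction h d := no_mono h d

end Pool.Agent.Results.MP_39539f_lc.MonotoneTuring
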